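import Mathlib
import Pool.Agent.Lib.MP_e6ac2b_gt.BoolGroup
import Pool.Agent.Lib.MP_e6ac2b_gt.Space

set_option autoImplicit false

open Pool.Agent.Lib.MP_e6ac2b_gt

/-- There is a regular (and `T₁`) separable quasitopological group that is not completely
regular. -/
theorem Pool.Agent.Lib.MP_e6ac2b_gt.Old.separableRegular :
    ∃ (G : Type) (_ : Group G) (_ : TopologicalSpace G),
      (∀ a : G, Continuous fun x : G => a * x) ∧ (∀ a : G, Continuous fun x : G => x * a) ∧
      (Continuous fun x : G => x⁻¹) ∧ T1Space G ∧ RegularSpace G ∧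
      TopologicalSpace.SeparableSpace G ∧ ¬ CompletelyRegularSpace G := by
  obtain ⟨C, hC, hsep⟩ := exists_clopen_seq
  obtain ⟨t, h1, h2, h3, h4⟩ := exists_group not_completelyRegular hC hsep
  have h5 : T1Space (Pt →₀ ZMod 2) := inferInstance
  have h6 : RegularSpace (Pt →₀ ZMod 2) := inferInstance
  refine ⟨Multiplicative (Pt →₀ ZMod 2), inferInstance, t, fun a => h1 a.toAdd, fun a => ?_, ?_,
    h5, h6, h3, h4⟩
  · have : (fun x : Multiplicative (Pt →₀ ZMod 2) => x * a) = fun x => a * x := by
      funext x
      exact mul_comm x a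
    rw [this]
    exact h1 a.toAdd
  · have : (fun x : Multiplicative (Pt →₀ ZMod 2) => x⁻¹) = id := by
      funext x
      exact inv_eq_of_mul_eq_one_right (add_self_eq_zero' x.toAdd)
    rw [this]
    exact continuous_id
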